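import Mathlib

set_option autoImplicit false
set_option maxSynthPendingDepth 3

namespace Pool.Agent.Results.MP_80c6d6_ag.NoLimit

open Filter Topology PowerSeries Finset
open scoped NNReal ENNReal

/-- The `R`-linear map `R → R^{1/q}`, `1 ↦ d^{1/q}` splits. -/
def Splits {R : Type} [CommRing R] (q : ℕ) (d : R) : Prop :=
  ∃ φ : R →+ R, (∀ r x, φ (r ^ q * x) = r * φ x) ∧ φ d = 1

/-- `R` is a finitely generated module over its subring of `p`-th powers. -/
def FFinite (R : Type) [CommRing R] (p : ℕ) : Prop :=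
  ∃ S : Finset R, ∀ x, ∃ c : R → R, x = ∑ s ∈ S, c s ^ p * s

/-- F-purity of the pair `(R, a^t)` for a local ring `R`. -/
def FPurePair {R : Type} [CommRing R] (p : ℕ) (a : Ideal R) (t : ℝ≥0) : Prop :=
  ∀ᶠ e : ℕ in atTop, ∃ d ∈ a ^ ⌈(t : ℝ) * ((p : ℝ) ^ e - 1)⌉₊, Splits (p ^ e) d

/-- The F-pure threshold, in `[0, ∞]`. -/
noncomputable def fpt {R : Type} [CommRing R] (p : ℕ) (a : Ideal R) : ℝ≥0∞ :=
  ⨆ t ∈ {t : ℝ≥0 | FPurePair p a t}, (t : ℝ≥0∞)

section lift
variable {B : Type} [CommRing B] [CharP B 2]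

lemma coeff_sq (r : B⟦X⟧) (m : ℕ) :
    coeff m (r ^ 2) = if 2 ∣ m then coeff (m / 2) r ^ 2 else 0 := by
  have h := MvPowerSeries.map_frobenius_expand (σ := Unit) (R := B) 2 two_ne_zero (f := r)
  have h2 : r ^ 2 = PowerSeries.map (frobenius B 2) (PowerSeries.expand 2 two_ne_zero r) := h.symm
  rw [h2, coeff_map, coeff_expand]
  split_ifs <;> simp [frobenius_def]

/-- lift of an additive map to power series -/
noncomputable def L (ψ : B →+ B) (ε : ℕ) : B⟦X⟧ →+ B⟦X⟧ where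
  toFun f := PowerSeries.mk fun n => ψ (coeff (2 * n + ε) f)
  map_zero' := by ext n; simp
  map_add' f g := by ext n; simp

omit [CharP B 2] in
lemma coeff_L (ψ : B →+ B) (ε n : ℕ) (f : B⟦X⟧) : coeff n (L ψ ε f) = ψ (coeff (2 * n + ε) f) := by
  simp [L]

lemma L_cart (ψ : B →+ B) (hψ : ∀ r x, ψ (r ^ 2 * x) = r * ψ x) (ε : ℕ) (hε : ε < 2)
    (r f : B⟦X⟧) : L ψ ε (r ^ 2 * f) = r * L ψ ε f := by
  ext n
  rw [coeff_L, coeff_mul, coeff_mul, map_sum]
  symm
  refine sum_bij_ne_zero (fun a _ _ => (2 * a.1, 2 * a.2 + ε)) ?_ ?_ ?_ ?_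
  · intro a ha _
    rw [HasAntidiagonal.mem_antidiagonal] at ha ⊢
    simp only
    omega
  · intro a _ _ b _ _ h
    simp only [Prod.mk.injEq] at h
    ext <;> omega
  · intro b hb hne
    rw [HasAntidiagonal.mem_antidiagonal] at hb
    have h2 : 2 ∣ b.1 := by
      by_contra h
      rw [coeff_sq, if_neg h] at hne
      simp at hne
    have e1 : b.1 = 2 * (b.1 / 2) := by omega
    have e2 : b.2 = 2 * (b.2 / 2) + ε := by omega
    refine ⟨(b.1 / 2, b.2 / 2), by rw [HasAntidiagonal.mem_antidiagonal]; simp only; omega, ?_, ?_⟩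
    · rw [coeff_sq, if_pos h2, hψ] at hne
      rw [coeff_L, ← e2]
      exact hne
    · ext <;> simp only <;> omega
  · intro a _ _
    simp only
    rw [coeff_sq, if_pos (Dvd.intro _ rfl), hψ, coeff_L, Nat.mul_div_cancel_left _ two_pos]

lemma L_dec {ι : Type} [Fintype ι] (ψ : ι → B →+ B) (b : ι → B)
    (h : ∀ x, x = ∑ k, ψ k x ^ 2 * b k) (f : B⟦X⟧) :
    f = ∑ k, L (ψ k) 0 f ^ 2 * C (b k) + ∑ k, L (ψ k) 1 f ^ 2 * (C (b k) * X) := by
  ext m
  simp only [map_add, map_sum, ← mul_assoc, coeff_mul_C]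
  rcases Nat.even_or_odd' m with ⟨n, rfl | rfl⟩
  · have h1 : ∀ k, coeff (2 * n) (L (ψ k) 1 f ^ 2 * C (b k) * X) = 0 := by
      intro k
      rcases n with _ | n
      · simp
      · rw [show 2 * (n + 1) = (2 * n + 1) + 1 by ring, coeff_succ_mul_X, coeff_mul_C, coeff_sq,
          if_neg (by omega), zero_mul]
    simp only [h1, sum_const_zero, add_zero, coeff_sq, if_pos (Dvd.intro n rfl), coeff_L,
      Nat.mul_div_cancel_left _ two_pos]
    exact h _
  · simp only [coeff_succ_mul_X, coeff_mul_C, coeff_sq, if_pos (Dvd.intro n rfl), coeff_L,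
      Nat.mul_div_cancel_left _ two_pos, if_neg (show ¬ 2 ∣ 2 * n + 1 by omega), zero_mul,
      sum_const_zero, zero_add]
    exact h _

lemma charP_ps : CharP B⟦X⟧ 2 := charP_of_injective_ringHom (f := C) C_injective 2

end lift

/-- `F_2[[z]]` -/
abbrev B : Type := (ZMod 2)⟦X⟧
/-- `F_2[[z]][[t]]` -/
abbrev A : Type := B⟦X⟧

/-- `F_2[[z]]` has characteristic two -/
instance : CharP B 2 := charP_ps
/-- `F_2[[z,t]]` has characteristic two -/
instance : CharP A 2 := charP_ps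

/-- pairs with the same constant term in `t`; this is `F_2[[x,y,z]]/(xy)` -/
noncomputable def Rs : Subring (A × A) :=
  RingHom.eqLocus (constantCoeff.comp (RingHom.fst A A)) (constantCoeff.comp (RingHom.snd A A))

/-- the ring -/
abbrev R : Type := Rs

lemma mem_Rs (f g : A) : (f, g) ∈ Rs ↔ constantCoeff f = constantCoeff g := Iff.rfl

lemma cc_eq (x : R) : constantCoeff x.1.1 = constantCoeff x.1.2 := x.2

/-- diagonal embedding -/
noncomputable def dg : A →+* R :=
  (RingHom.prod (RingHom.id A) (RingHom.id A)).codRestrict Rs (fun _ => rfl)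

/-- the element `x` -/
noncomputable def ex : R := ⟨(X, 0), by simp [mem_Rs]⟩
/-- the element `y` -/
noncomputable def ey : R := ⟨(0, X), by simp [mem_Rs]⟩

@[simp] lemma dg1 (f : A) : (dg f).1.1 = f := rfl
@[simp] lemma dg2 (f : A) : (dg f).1.2 = f := rfl
@[simp] lemma ex1 : ex.1.1 = X := rfl
@[simp] lemma ex2 : ex.1.2 = 0 := rfl
@[simp] lemma ey1 : ey.1.1 = 0 := rfl
@[simp] lemma ey2 : ey.1.2 = X := rfl

lemma Rext {x y : R} (h1 : x.1.1 = y.1.1) (h2 : x.1.2 = y.1.2) : x = y :=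
  Subtype.ext (Prod.ext h1 h2)

lemma dg_inj : Function.Injective dg := fun f g h => by
  have := congrArg (fun x : R => x.1.1) h
  simpa using this

lemma charR : CharP R 2 := charP_of_injective_ringHom dg_inj 2

lemma noethR : IsNoetherianRing R := by
  refine isNoetherianRing_of_surjective (Polynomial A) R (Polynomial.eval₂RingHom dg ex) ?_
  intro x
  obtain ⟨h, hh⟩ : (X : A) ∣ x.1.1 - x.1.2 := by
    rw [X_dvd_iff, map_sub, cc_eq, sub_self]
  refine ⟨Polynomial.C x.1.2 + Polynomial.C h * Polynomial.X, ?_⟩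
  simp only [Polynomial.coe_eval₂RingHom, Polynomial.eval₂_add, Polynomial.eval₂_C,
    Polynomial.eval₂_mul, Polynomial.eval₂_X]
  apply Rext
  · simp only [Subring.coe_add, Subring.coe_mul, Prod.fst_add, Prod.fst_mul, dg1, ex1]
    linear_combination -hh
  · simp

lemma unitR (x : R) (h : IsUnit (constantCoeff x.1.1)) : IsUnit x := by
  obtain ⟨f, hf⟩ := (isUnit_iff_constantCoeff.2 h).exists_right_inv
  obtain ⟨g, hg⟩ := (isUnit_iff_constantCoeff.2 (cc_eq x ▸ h)).exists_right_inv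
  have h1 := congrArg constantCoeff hf
  have h2 := congrArg constantCoeff hg
  rw [map_mul, map_one] at h1 h2
  rw [← cc_eq] at h2
  exact IsUnit.of_mul_eq_one (⟨(f, g), h.mul_left_cancel (h1.trans h2.symm)⟩ : R) (Rext hf hg)

lemma localR : IsLocalRing R := by
  haveI : Nontrivial R := dg_inj.nontrivial
  refine IsLocalRing.of_isUnit_or_isUnit_one_sub_self fun x => ?_
  rcases IsLocalRing.isUnit_or_isUnit_one_sub_self (constantCoeff x.1.1) with h | h
  · exact Or.inl (unitR x h)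
  · exact Or.inr (unitR _ (by simpa using h))

/-- the two Cartier maps on `B` -/
noncomputable def ψB (k : Fin 2) : B →+ B := L (AddMonoidHom.id (ZMod 2)) k

/-- the basis `1, z` -/
noncomputable def bB (k : Fin 2) : B := X ^ (k : ℕ)

lemma zsq (r : ZMod 2) : r ^ 2 = r := ZMod.pow_card r

lemma decB (x : B) : x = ∑ k, ψB k x ^ 2 * bB k := by
  have := L_dec (ι := Unit) (fun _ => AddMonoidHom.id (ZMod 2)) (fun _ => 1)
    (fun x => by simp [zsq]) x
  simpa [ψB, bB, Fin.sum_univ_two] using this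

/-- componentwise action on `R` -/
noncomputable def ΦR (ψ : B →+ B) : R →+ R where
  toFun x := ⟨(L ψ 0 x.1.1, L ψ 0 x.1.2), by
    rw [mem_Rs, ← coeff_zero_eq_constantCoeff_apply, ← coeff_zero_eq_constantCoeff_apply,
      coeff_L, coeff_L]
    simp [cc_eq]⟩
  map_zero' := Rext (by simp) (by simp)
  map_add' x y := Rext (by simp) (by simp)

lemma ffinR : FFinite R 2 := by
  classical
  have key : ∀ x : R, x = ∑ k, ΦR (ψB k) x ^ 2 * dg (C (bB k))
      + ∑ k, dg (L (ψB k) 1 x.1.1) ^ 2 * (dg (C (bB k)) * ex)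
      + ∑ k, dg (L (ψB k) 1 x.1.2) ^ 2 * (dg (C (bB k)) * ey) := by
    intro x
    apply Rext
    · have := L_dec ψB bB decB x.1.1
      simpa [ΦR, Fin.sum_univ_two] using this
    · have := L_dec ψB bB decB x.1.2
      simpa [ΦR, Fin.sum_univ_two] using this
  haveI := charR
  set g : Fin 3 × Fin 2 → R := fun i => dg (C (bB i.2)) * ![1, ex, ey] i.1 with hg
  have key2 : ∀ x : R, ∃ c : Fin 3 × Fin 2 → R, x = ∑ i, c i ^ 2 * g i := by
    intro x
    refine ⟨fun i => ![ΦR (ψB i.2) x, dg (L (ψB i.2) 1 x.1.1), dg (L (ψB i.2) 1 x.1.2)] i.1, ?_⟩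
    rw [Fintype.sum_prod_type, Fin.sum_univ_three]
    simpa [hg] using key x
  refine ⟨univ.image g, fun x => ?_⟩
  obtain ⟨c, hc⟩ := key2 x
  refine ⟨fun s => ∑ i ∈ univ.filter (fun i => g i = s), c i, ?_⟩
  rw [hc, ← sum_fiberwise_of_maps_to (s := univ) (t := univ.image g) (g := g)
    (fun i _ => mem_image_of_mem g (mem_univ i))]
  refine sum_congr rfl fun s _ => ?_
  rw [sum_pow_char, sum_mul]
  exact sum_congr rfl fun i hi => by rw [(mem_filter.1 hi).2]

/-- the element `z` -/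
noncomputable def ez : R := dg (C X)

lemma Φ_cart (r x : R) : ΦR (ψB 1) (r ^ 2 * x) = r * ΦR (ψB 1) x := by
  have h : ∀ r x : B, ψB 1 (r ^ 2 * x) = r * ψB 1 x :=
    L_cart _ (fun r x => by simp [zsq]) _ (by norm_num)
  exact Rext (by simpa [ΦR] using L_cart _ h 0 two_pos r.1.1 x.1.1)
    (by simpa [ΦR] using L_cart _ h 0 two_pos r.1.2 x.1.2)

lemma Φ_z : ΦR (ψB 1) ez = 1 := by
  have h0 : ψB 1 X = 1 := by
    ext n
    rw [ψB, coeff_L, coeff_X, coeff_one]
    simp
  have h : L (ψB 1) 0 (C X) = 1 := by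
    ext1 n
    rw [coeff_L, coeff_C, coeff_one]
    rcases n with _ | n <;> simp [h0]
  exact Rext h h

lemma splits_z (e : ℕ) : Splits (2 ^ e) (ez ^ (2 ^ e - 1)) := by
  induction e with
  | zero => exact ⟨AddMonoidHom.id R, by simp, by simp⟩
  | succ e ih =>
    obtain ⟨φ, h1, h2⟩ := ih
    refine ⟨φ.comp (ΦR (ψB 1)), fun r x => ?_, ?_⟩
    · rw [AddMonoidHom.comp_apply, pow_succ, pow_mul, Φ_cart, h1]; rfl
    · have : 2 ^ (e + 1) - 1 = (2 ^ e - 1) * 2 + 1 := by
        have := Nat.one_le_two_pow (n := e)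
        rw [pow_succ]; omega
      rw [AddMonoidHom.comp_apply, this, pow_succ, pow_mul, Φ_cart, Φ_z, mul_one, h2]

lemma splits_of_mul {q : ℕ} {a d : R} (h : Splits q (a * d)) : Splits q d := by
  obtain ⟨φ, h1, h2⟩ := h
  refine ⟨φ.comp (AddMonoidHom.mulLeft a), fun r x => ?_, h2⟩
  simp only [AddMonoidHom.comp_apply, AddMonoidHom.coe_mulLeft]
  rw [mul_left_comm, h1]

/-- the ideal `(x, y)` -/
noncomputable def nn : Ideal R := Ideal.span {ex, ey}

lemma not_splits (q : ℕ) (hq : q ≠ 0) (d : R) (hd : d ∈ nn) : ¬ Splits q d := by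
  rintro ⟨φ, h1, h2⟩
  obtain ⟨a, b, rfl⟩ := Ideal.mem_span_pair.1 hd
  have hxy : ex * ey = 0 := Rext (by simp) (by simp)
  obtain ⟨q, rfl⟩ := Nat.exists_eq_succ_of_ne_zero hq
  have e1 : ey * φ (a * ex) = 0 := by
    rw [← h1, show ey ^ q.succ * (a * ex) = ey ^ q * a * (ex * ey) by rw [pow_succ]; ring, hxy]
    simp
  have e2 : ex * φ (b * ey) = 0 := by
    rw [← h1, show ex ^ q.succ * (b * ey) = ex ^ q * b * (ex * ey) by rw [pow_succ]; ring, hxy]
    simp
  have f1 : (φ (a * ex)).1.2 = 0 := by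
    have := congrArg (fun x : R => x.1.2) e1
    simpa using this
  have f2 : (φ (b * ey)).1.1 = 0 := by
    have := congrArg (fun x : R => x.1.1) e2
    simpa using this
  have g1 : constantCoeff (φ (a * ex)).1.1 = 0 := by rw [cc_eq, f1, map_zero]
  have := congrArg (fun x : R => constantCoeff x.1.1) h2
  simp [g1, f2] at this

/-- the graded sequence -/
noncomputable def I (m : ℕ) : Ideal R :=
  if Even m then Ideal.span {ez} ^ m else Ideal.span {ez} ^ m * nn

lemma I_le (m : ℕ) : I m ≤ Ideal.span {ez} ^ m := by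
  unfold I; split_ifs
  · exact le_rfl
  · exact Ideal.mul_le_left

lemma I_mul (m n : ℕ) : I m * I n ≤ I (m + n) := by
  by_cases h : Even (m + n)
  · rw [show I (m + n) = Ideal.span {ez} ^ (m + n) from if_pos h, pow_add]
    exact Ideal.mul_mono (I_le m) (I_le n)
  · rw [show I (m + n) = Ideal.span {ez} ^ (m + n) * nn from if_neg h, pow_add]
    by_cases hm : Even m
    · have hn : ¬ Even n := fun hn => h (hm.add hn)
      rw [show I n = Ideal.span {ez} ^ n * nn from if_neg hn, mul_assoc]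
      exact Ideal.mul_mono_left (I_le m)
    · rw [show I m = Ideal.span {ez} ^ m * nn from if_neg hm, mul_right_comm]
      exact Ideal.mul_mono_left (Ideal.mul_mono_right (I_le n))

lemma I_reg (m : ℕ) : ∃ x ∈ I m, ∀ P ∈ minimalPrimes R, x ∉ P := by
  have hz : ez ^ m ∈ Ideal.span {ez} ^ m := Ideal.pow_mem_pow (Ideal.mem_span_singleton_self _) m
  refine ⟨ez ^ m * (ex + ey), ?_, fun P hP hx => ?_⟩
  · unfold I; split_ifs
    · exact Ideal.mul_mem_right _ _ hz
    · exact Ideal.mul_mem_mul hz (Ideal.mem_span_pair.2 ⟨1, 1, by simp⟩)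
  · refine notMem_nonZeroDivisors_of_mem_mem_minimalPrimes hx hP ?_
    have hC : (C X : A) ≠ 0 := fun h => X_ne_zero (C_injective (h.trans (map_zero _).symm))
    refine mem_nonZeroDivisors_iff_right.2 fun y hy => Rext ?_ ?_
    · have := congrArg (fun x : R => x.1.1) hy
      simpa [ez, hC] using this
    · have := congrArg (fun x : R => x.1.2) hy
      simpa [ez, hC] using this

lemma tends : Tendsto (fun e : ℕ => (2 : ℝ) ^ e) atTop atTop :=
  tendsto_pow_atTop_atTop_of_one_lt one_lt_two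

lemma fpt_odd (m : ℕ) (hm : ¬ Even m) : fpt 2 (I m) = 0 := by
  refine le_antisymm (iSup₂_le fun t ht => ?_) (zero_le)
  by_contra h
  have ht0 : (0 : ℝ) < t := by
    rcases eq_or_lt_of_le t.2 with h0 | h0
    · exact absurd (by rw [show t = 0 from NNReal.coe_injective h0.symm]; simp) h
    · exact h0
  obtain ⟨e, ⟨d, hd, hs⟩, he⟩ := (Filter.Eventually.and ht (tends.eventually_gt_atTop 1)).exists
  refine not_splits _ (by positivity) d ?_ hs
  have h1 : ⌈(t : ℝ) * (((2 : ℕ) : ℝ) ^ e - 1)⌉₊ ≠ 0 := by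
    apply Nat.ne_of_gt
    rw [Nat.ceil_pos]
    push_cast
    exact mul_pos ht0 (by linarith)
  have h2 := Ideal.pow_le_self h1 hd
  rw [show I m = Ideal.span {ez} ^ m * nn from if_neg hm] at h2
  exact Ideal.mul_le_right h2

lemma fpt_even (m : ℕ) (hm : Even m) (h0 : 0 < m) : (1 / 2 : ℝ≥0∞) ≤ m * fpt 2 (I m) := by
  have hm' : (0 : ℝ) < m := by exact_mod_cast h0
  have hp : FPurePair 2 (I m) (1 / (2 * m)) := by
    filter_upwards [tends.eventually_ge_atTop (2 * m + 1)] with e he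
    set k := ⌈((1 / (2 * m) : ℝ≥0) : ℝ) * (((2 : ℕ) : ℝ) ^ e - 1)⌉₊ with hk
    have hk1 : (k : ℝ) < 1 / (2 * m) * (2 ^ e - 1) + 1 := by
      have := Nat.ceil_lt_add_one (a := ((1 / (2 * m) : ℝ≥0) : ℝ) * (((2 : ℕ) : ℝ) ^ e - 1))
        (mul_nonneg (NNReal.coe_nonneg _) (by push_cast; linarith))
      rw [← hk] at this
      push_cast at this
      exact this
    have hk2 : m * k + 1 ≤ 2 ^ e := by
      have h1 := mul_lt_mul_of_pos_left hk1 hm'
      have h2 : (m : ℝ) * (1 / (2 * m) * (2 ^ e - 1) + 1) = (2 ^ e - 1) / 2 + m := by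
        field_simp
      have : ((m * k + 1 : ℕ) : ℝ) ≤ ((2 ^ e : ℕ) : ℝ) := by push_cast; linarith
      exact_mod_cast this
    refine ⟨ez ^ (m * k), ?_, ?_⟩
    · rw [show I m = Ideal.span {ez} ^ m from if_pos hm, ← pow_mul]
      exact Ideal.pow_mem_pow (Ideal.mem_span_singleton_self _) _
    · apply splits_of_mul (a := ez ^ (2 ^ e - 1 - m * k))
      rw [← pow_add, show 2 ^ e - 1 - m * k + m * k = 2 ^ e - 1 by omega]
      exact splits_z e
  have h1 : ((1 / (2 * m) : ℝ≥0) : ℝ≥0∞) ≤ fpt 2 (I m) :=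
    le_iSup₂ (f := fun (t : ℝ≥0) (_ : t ∈ {t : ℝ≥0 | FPurePair 2 (I m) t}) => (t : ℝ≥0∞)) _ hp
  refine le_trans (le_of_eq ?_) (mul_le_mul_right h1 _)
  have h2 : (m : ℝ≥0) ≠ 0 := by exact_mod_cast h0.ne'
  have h3 : (m : ℝ≥0) * (1 / (2 * m)) = 1 / 2 := by field_simp
  rw [← ENNReal.coe_natCast, ← ENNReal.coe_mul, h3]
  simp

/-- An F-finite, F-split local ring of characteristic two with a graded sequence of proper ideals
for which `m · fpt(I_m)` has no limit in `[0,∞]`. -/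
theorem result : ∃ (R : Type) (_ : CommRing R), IsNoetherianRing R ∧ IsLocalRing R ∧ CharP R 2 ∧
    FFinite R 2 ∧ Splits 2 (1 : R) ∧ ∃ I : ℕ → Ideal R,
      (∀ m ≥ 1, I m ≠ ⊤ ∧ ∃ x ∈ I m, ∀ P ∈ minimalPrimes R, x ∉ P) ∧
      (∀ m ≥ 1, ∀ n ≥ 1, I m * I n ≤ I (m + n)) ∧
      ¬ ∃ l : ℝ≥0∞, Tendsto (fun m : ℕ => (m : ℝ≥0∞) * fpt 2 (I m)) atTop (𝓝 l) := by
  refine ⟨R, inferInstance, noethR, localR, charR, ffinR, ?_, I, fun m hm => ⟨?_, I_reg m⟩,
    fun m _ n _ => I_mul m n, ?_⟩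
  · apply splits_of_mul (a := ez)
    simpa using splits_z 1
  · intro h
    have h1 : (1 : R) ∈ Ideal.span {ez} :=
      Ideal.pow_le_self (by omega) (I_le m (h ▸ Submodule.mem_top))
    obtain ⟨a, ha⟩ := Ideal.mem_span_singleton'.1 h1
    have := congrArg (fun x : R => constantCoeff (constantCoeff x.1.1)) ha
    simp [ez] at this
  · rintro ⟨l, hl⟩
    have t1 : Tendsto (fun k : ℕ => 2 * k + 1) atTop atTop :=
      tendsto_atTop_mono (fun k => by simp only [id]; omega) tendsto_id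
    have t2 : Tendsto (fun k : ℕ => 2 * k + 2) atTop atTop :=
      tendsto_atTop_mono (fun k => by simp only [id]; omega) tendsto_id
    have h1 := hl.comp t1
    have h2 := hl.comp t2
    have e1 : ((fun m : ℕ => (m : ℝ≥0∞) * fpt 2 (I m)) ∘ fun k : ℕ => 2 * k + 1) = fun _ => 0 := by
      funext k
      simp only [Function.comp]
      rw [fpt_odd _ (by simp), mul_zero]
    rw [e1] at h1
    have hl0 : l = 0 := tendsto_nhds_unique h1 tendsto_const_nhds
    have : (1 / 2 : ℝ≥0∞) ≤ l := ge_of_tendsto' h2 fun k =>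
      fpt_even (2 * k + 2) ⟨k + 1, by ring⟩ (by omega)
    rw [hl0] at this
    simp at this

end Pool.Agent.Results.MP_80c6d6_ag.NoLimit
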